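import Pool.Agent.H.MP_bec853_al.A

namespace Pool.Agent.H.MP_b831a3_al

open FreeGroup hiding map_mul map_inv map_one
open Pool.Agent.H.MP_1d2ce7_al Pool.Agent.H.MP_a41846_al Pool.Agent.H.MP_bec853_al Filter

open Classical in
theorem low0 {β : Type} [Fintype β] (T : β → β → Prop) {d : ℕ}
    (hd : ∀ y, (Finset.univ.filter (T y)).card = d) : ∀ (n : ℕ) (y : β),
    (chn T n y).card = d ^ n ∧ ∀ L ∈ chn T n y, L.length = n ∧ (y :: L).IsChain T
  | 0, y => by simp [chn]
  | n + 1, y => by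
    constructor
    · rw [chn, Finset.card_biUnion]
      · rw [Finset.sum_congr rfl (g := fun _ => d ^ n) fun s _ => (Finset.card_image_of_injective _
          List.cons_injective).trans (low0 T hd n s).1, Finset.sum_const, smul_eq_mul, pow_succ', hd]
      · intro s _ t _ e
        refine Finset.disjoint_left.2 fun L a b => e ?_
        obtain ⟨M, -, rfl⟩ := Finset.mem_image.1 a
        obtain ⟨M', -, q⟩ := Finset.mem_image.1 b
        exact (List.cons.inj q).1.symm
    · intro L a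
      simp only [chn, Finset.mem_biUnion, Finset.mem_filter, Finset.mem_image] at a
      obtain ⟨s, ⟨-, p⟩, M, q, rfl⟩ := a
      exact ⟨by simp [((low0 T hd n s).2 M q).1],
        List.isChain_cons_cons.2 ⟨p, ((low0 T hd n s).2 M q).2⟩⟩

theorem low {r : ℕ} (n : ℕ) (y : Fin r × Bool) :
    (chn (fun y s : Fin r × Bool => s ≠ fl y) n y).card = (2 * r - 1) ^ n ∧
    ∀ L ∈ chn (fun y s : Fin r × Bool => s ≠ fl y) n y, L.length = n ∧ IsReduced (y :: L) := by
  have := low0 (fun y s : Fin r × Bool => s ≠ fl y) (d := 2 * r - 1) (fun y => by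
    convert Finset.card_erase_of_mem (Finset.mem_univ (fl y)) using 1
    · congr 1; ext s; simp
    · simp [mul_comm]) n y
  refine ⟨this.1, fun L a => ⟨(this.2 L a).1, (this.2 L a).2.imp fun p q e f => ?_⟩⟩
  rw [(fst_eq f.symm).resolve_right e]

theorem ball_ge {r : ℕ} (hr : 3 ≤ r) (n : ℕ) :
    (2 * r - 1 : ℝ) ^ n ≤ Set.ncard {w : FreeGroup (Fin r) | w.toWord.length ≤ n} := by
  have h := low n ((⟨0, by omega⟩, true) : Fin r × Bool)
  have rd := fun L a => sub (h.2 L a).2 (List.suffix_cons _ L).isInfix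
  have := Set.ncard_le_ncard_of_injOn (t := {w : FreeGroup (Fin r) | w.toWord.length ≤ n}) mk
    (fun L (a : L ∈ (chn (fun y s : Fin r × Bool => s ≠ fl y) n (⟨0, by omega⟩, true) : Set _)) =>
      by rw [Set.mem_ofPred_eq, tw (rd L a)]; exact (h.2 L a).1.le)
    (fun L a M b e => by rw [← tw (rd L a), e, tw (rd M b)]) (ball_fin n)
  rw [Set.ncard_coe_finset, h.1] at this
  have e : (2 * r - 1 : ℝ) = (2 * r - 1 : ℕ) := by rw [Nat.cast_sub (by omega)]; simp
  rw [e]
  exact_mod_cast this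

theorem dens {r : ℕ} (hr : 3 ≤ r) (X : Set (FreeGroup (Fin r))) (hX : ∀ w ∈ X, Q w) :
    Tendsto (fun n : ℕ => (Set.ncard {w ∈ X | w.toWord.length ≤ n} : ℝ) /
      Set.ncard {w : FreeGroup (Fin r) | w.toWord.length ≤ n}) atTop (nhds 0) := by
  classical
  obtain ⟨C, h⟩ := cnt4 hr
  have r3 : (3 : ℝ) ≤ r := by exact_mod_cast hr
  have d0 : (0 : ℝ) < 1 / (r - 1) := one_div_pos.2 (by linarith)
  have d1 : (1 / (r - 1) : ℝ) < 1 := by rw [div_lt_one (by linarith)]; linarith
  have l1 : 1 ≤ (2 * r - 2 + 1 / (r - 1) : ℝ) := by linarith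
  have l2 : (2 * r - 2 + 1 / (r - 1) : ℝ) < 2 * r - 1 := by linarith
  generalize (2 * r - 2 + 1 / (r - 1) : ℝ) = l at *
  choose F f1 f2 using h
  have c0 : 0 ≤ C := by simpa using (Nat.cast_nonneg _).trans (f1 0)
  have up : ∀ n : ℕ, (Set.ncard {w ∈ X | w.toWord.length ≤ n} : ℝ) ≤ (n + 1) * (C * l ^ n) := by
    intro n
    have := Set.ncard_le_ncard_of_injOn (s := {w ∈ X | w.toWord.length ≤ n})
      (t := ((Finset.range (n + 1)).biUnion F : Finset _)) toWord (fun w a =>
        Finset.mem_biUnion.2 ⟨_, Finset.mem_range.2 (Nat.lt_succ_of_le a.2), f2 _ _ rfl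
          ⟨isReduced_toWord, by rw [mk_toWord]; exact hX w a.1⟩⟩) toWord_injective.injOn
    rw [Set.ncard_coe_finset] at this
    refine le_trans (Nat.cast_le.2 (this.trans Finset.card_biUnion_le)) ?_
    push_cast
    refine le_trans (Finset.sum_le_sum (g := fun _ => C * l ^ n) fun k a => (f1 k).trans
      (mul_le_mul_of_nonneg_left (pow_le_pow_right₀ l1
        (Nat.le_of_lt_succ (Finset.mem_range.1 a))) c0)) (by simp)
  have q0 : 0 ≤ l / (2 * r - 1) := div_nonneg (by linarith) (by linarith)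
  have q1 : l / (2 * r - 1) < 1 := by rw [div_lt_one (by linarith)]; exact l2
  have t := ((tendsto_self_mul_const_pow_of_lt_one q0 q1).add
    (tendsto_pow_atTop_nhds_zero_of_lt_one q0 q1)).const_mul C
  rw [add_zero, mul_zero] at t
  refine squeeze_zero (fun n => by positivity) (fun n => ?_) t
  have p : (0 : ℝ) < (2 * r - 1) ^ n := pow_pos (by linarith) n
  refine le_trans (div_le_div₀ (by positivity) (up n) p (ball_ge hr n)) (le_of_eq ?_)
  rw [div_pow]; ring

end Pool.Agent.H.MP_b831a3_al
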