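import Pool.Agent.H.MP_b831a3_al.A

namespace Pool.Agent.H.MP_b831a3_al

open FreeGroup hiding map_mul map_inv map_one
open Pool.Agent.H.MP_1d2ce7_al Pool.Agent.H.MP_a41846_al Pool.Agent.H.MP_bec853_al

variable {α : Type} [DecidableEq α]

theorem turn3 {L : List (α × Bool)} (hc : IsCyclicallyReduced L) {P : Set (FreeGroup α)}
    {y s : α × Bool} (fA : (hs {fl s} 1 ∩ Pᶜ).Finite)
    (fB : (hs {y} 1 ∩ P).Finite) {c1 c2 : List (α × Bool)} (e : L = c1 ++ y :: s :: c2)
    (h : ∀ n k : ℕ, (mk (s :: c2) * mk L ^ n)⁻¹ ∈ P → mk L ^ k * (mk (s :: c2) * mk L ^ n)⁻¹ ∈ P) :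
    False := by
  let Z : ℕ → List (α × Bool) := fun n => (List.replicate n L).flatten
  have z1 : ∀ n, mk (Z n) = mk L ^ n := fun n => by rw [← pow_mk]
  have z2 : ∀ n, n ≤ (Z n).length := fun n => by
    simp only [Z, List.length_flatten, List.map_replicate, List.sum_replicate, smul_eq_mul]
    exact Nat.le_mul_of_pos_right _ (by simp [e])
  have r1 : ∀ n, IsReduced (Z n ++ c1 ++ [y]) := fun n => by
    refine sub (hc.flatten_replicate (n + 1)).isReduced (List.IsPrefix.isInfix ⟨s :: c2, ?_⟩)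
    rw [List.replicate_add, List.flatten_append]
    simp [Z, ← e]
  have r2 : ∀ n, IsReduced (invRev (c2 ++ Z n) ++ [fl s]) := fun n => by
    have : IsReduced ([s] ++ (c2 ++ Z n)) :=
      sub (hc.flatten_replicate (1 + n)).isReduced (List.IsSuffix.isInfix ⟨c1 ++ [y], by
        rw [List.replicate_add, List.flatten_append]
        conv_rhs => enter [1]; rw [e]
        simp [Z]⟩)
    have := red_inv this
    rw [invRev_append] at this
    exact this
  have cn : ∀ {M : List (α × Bool)} {t}, IsReduced (M ++ [t]) → mk (M ++ [t]) ∈ hs {t} 1 :=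
    fun r => hs1.2 (by
      show _ <:+ _
      rw [inv_one, mul_one, tw r]; exact ⟨_, rfl⟩)
  obtain ⟨n, hn⟩ := esc fA (fun n => mk (invRev (c2 ++ Z n) ++ [fl s]))
    (fun n => cn (r2 n)) (fun n => by rw [tw (r2 n)]; have := z2 n; simp; omega)
  obtain ⟨m, hm⟩ := esc fB (fun n => mk (Z n ++ c1 ++ [y])) (fun n => cn (r1 n))
    (fun n => by rw [tw (r1 n)]; have := z2 n; simp; omega)
  apply hm
  have k2 : mk (invRev (c2 ++ Z n) ++ [fl s]) = (mk (s :: c2) * mk L ^ n)⁻¹ := by
    rw [show mk (s :: c2) = mk [s] * mk c2 from rfl]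
    simp only [← mul_mk, ← inv_mk, z1, mk_fl]
    group
  have key : mk (Z m ++ c1 ++ [y]) = mk L ^ (m + 1 + n) * (mk (s :: c2) * mk L ^ n)⁻¹ := by
    have ew : mk L ^ 1 = mk c1 * mk [y] * mk (s :: c2) := by
      rw [pow_one, mul_mk, mul_mk, e]; simp
    simp only [← mul_mk, z1, pow_add, ew]
    group
  rw [key]
  exact h _ _ (k2 ▸ not_not.1 hn)

def QR (V : Type) (w : FreeGroup α) : Prop :=
  ∃ (ρ : FreeGroup α →* Equiv.Perm V) (v : V) (P : Set (FreeGroup α)), AI P ∧ NM P Set.univ ∧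
    ρ w v = v ∧ ∀ g ∈ P, ρ g v = v → w * g ∈ P

omit [DecidableEq α] in
theorem QR.aut {V : Type} {w : FreeGroup α} (ψ : MulAut (FreeGroup α)) (h : QR V (ψ w)) :
    QR V w := by
  obtain ⟨ρ, v, P, h1, h2, h3, h4⟩ := h
  exact ⟨ρ.comp ψ.toMonoidHom, v, ψ ⁻¹' P,
    fun x => ((h1 (ψ x)).preimage ψ.injective.injOn).subset fun g => by simp,
    (nm_pre ψ.toEquiv (H := Set.univ)).2 h2, h3, fun g a b => by simpa using h4 _ a b⟩

def Av {V : Type} (f : α → Equiv.Perm V) (v : V) (b : V) (y s : α × Bool)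
    (L : List (α × Bool)) : Prop :=
  IsReduced L ∧ ∀ c1 c2, L = c1 ++ y :: s :: c2 → lift f (mk (s :: c2)) v ≠ b

theorem conf2 [Finite α] {V : Type} {L : List (α × Bool)} (hc : IsCyclicallyReduced L)
    (h : QR V (mk L)) : ∃ (f : α → Equiv.Perm V) (v b : V) (y s : α × Bool), s ≠ fl y ∧
      (∃ g, lift f g v = b) ∧ Av f v b y s L := by
  obtain ⟨ρ, v, P, h1, h2, h3, h4⟩ := h
  obtain ⟨f, rfl⟩ := lift.surjective ρ
  obtain ⟨W, x, y, xy, rx, ry, fx, fy⟩ := split P (by simpa using h2.1) (by simpa using h2.2)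
    fun t => h1 _
  have r : IsReduced W := sub rx (List.suffix_cons _ _).isInfix
  have tr : ∀ (t) (X : Set (FreeGroup α)), IsReduced (t :: W) → (cone (t :: W) ∩ X).Finite →
      (hs {t} 1 ∩ Equiv.mulRight (mk W) ⁻¹' X).Finite := fun t X a b => by
    have e := hs_cone (t := t) (u := mk W) (by rwa [tw r])
    rw [tw r] at e
    rw [hs_tr _ 1 (mk W), inv_one, one_mul, e]
    exact (b.preimage (Equiv.mulRight (mk W)).injective.injOn :)
  refine ⟨f, v, lift f (mk W) v, y, fl x, fun e => xy (by rw [← fl_fl x, e, fl_fl]), ⟨_, rfl⟩,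
    hc.isReduced, fun c1 c2 e q => turn3 hc (P := Equiv.mulRight (mk W) ⁻¹' P)
      (by rw [fl_fl]; exact tr _ _ rx fx) (tr _ _ ry fy) e fun n k a => ?_⟩
  have p1 : ∀ n : ℕ, lift f (mk L ^ n) v = v := fun n => by
    rw [map_pow]; exact Function.IsFixedPt.perm_pow h3 n
  simp only [Set.mem_preimage, Equiv.coe_mulRight, mul_assoc] at a ⊢
  have p2 : lift f ((mk (fl x :: c2) * mk L ^ n)⁻¹ * mk W) v = v := by
    rw [map_mul, Equiv.Perm.mul_apply, ← q, map_inv, Equiv.Perm.inv_eq_iff_eq, map_mul,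
      Equiv.Perm.mul_apply, p1]
  induction k with
  | zero => simpa using a
  | succ k ih =>
    rw [pow_succ', mul_assoc]
    exact h4 _ ih (by rw [map_mul, Equiv.Perm.mul_apply, p2, p1])

def Rch {β : Type} (U : β → β → Prop) (τ : β) : ℕ → β → Prop
  | 0, σ => σ = τ
  | n + 1, σ => ∃ σ', U σ σ' ∧ Rch U τ n σ'

open Classical in
theorem pot {β : Type} [Fintype β] (T U : β → β → Prop) (τ τ' : β) {q : ℕ} (hq : 1 ≤ q)
    (h1 : ∀ σ σ', T σ σ' → U σ σ') (h2 : ∀ σ, (Finset.univ.filter (U σ)).card ≤ q)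
    (h3 : U τ τ' ∧ ¬ T τ τ') (h4 : ∀ σ σ', T σ σ' → ∃ n, Rch U τ n σ) :
    ∃ (l : ℝ) (v : β → ℝ), 0 ≤ l ∧ l < q ∧ (∀ y, 1 ≤ v y ∧ v y ≤ 2) ∧
      ∀ y, ∑ s ∈ Finset.univ.filter (T y), v s ≤ l * v y := by
  let d : β → ℕ := fun σ => if h : ∃ n, Rch U τ n σ then Nat.find h else 0
  obtain ⟨D, hD⟩ := (Set.finite_range d).bddAbove
  have q1 : (1 : ℝ) ≤ q := by exact_mod_cast hq
  obtain ⟨δ, d0, d1, d2⟩ : ∃ δ : ℝ, 0 < δ ∧ δ ≤ 1 / 2 ∧ q * δ = 1 / 2 :=
    ⟨1 / (2 * q), by positivity, one_div_le_one_div_of_le (by norm_num) (by linarith), by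
      field_simp⟩
  have pw : ∀ n, 0 < δ ^ n ∧ δ ^ n ≤ 1 := fun n => ⟨pow_pos d0 n, pow_le_one₀ d0.le (by linarith)⟩
  have vb : ∀ y, 1 ≤ 2 - 2 * δ ^ (d y + 1) ∧ 2 - 2 * δ ^ (d y + 1) ≤ 2 := fun y => by
    have := pw (d y)
    rw [pow_succ]
    constructor <;> nlinarith
  refine ⟨q - δ ^ D / 2, fun y => 2 - 2 * δ ^ (d y + 1), by linarith [(pw D).2],
    by linarith [(pw D).1], vb, fun y => ?_⟩
  by_cases c : ∃ s, T y s
  swap
  · rw [Finset.filter_eq_empty_iff.2 fun s _ a => c ⟨s, a⟩, Finset.sum_empty]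
    exact mul_nonneg (by linarith [(pw D).2]) (by linarith [(vb y).1])
  obtain ⟨s0, hs0⟩ := c
  have ex := h4 _ _ hs0
  have dy : d y = Nat.find ex := dif_pos ex
  have key : ∑ s ∈ Finset.univ.filter (T y), (2 - 2 * δ ^ (d s + 1)) ≤ 2 * q - 2 * δ ^ d y := by
    have sp := Nat.find_spec ex
    obtain ⟨z, z1, z2⟩ : ∃ z, U y z ∧ (T y z → δ ^ d y ≤ δ ^ (d z + 1)) := by
      rw [← dy] at sp
      rcases e : d y with _ | n <;> rw [e] at sp
      · obtain rfl : y = τ := sp
        exact ⟨τ', h3.1, fun a => absurd a h3.2⟩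
      · obtain ⟨z, a, b⟩ := sp
        refine ⟨z, a, fun _ => pow_le_pow_of_le_one d0.le (by linarith) (Nat.succ_le_succ ?_)⟩
        have : d z = Nat.find ⟨n, b⟩ := dif_pos ⟨n, b⟩
        rw [this]; exact Nat.find_min' _ b
    have zm : z ∈ Finset.univ.filter (U y) := Finset.mem_filter.2 ⟨Finset.mem_univ _, z1⟩
    have cd : (((Finset.univ.filter (T y)).erase z).card : ℝ) + 1 ≤ q := by
      have := Finset.card_le_card (Finset.erase_subset_erase z
        (Finset.monotone_filter_right Finset.univ fun s _ a => h1 y s a))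
      have := Finset.card_erase_add_one zm
      have := h2 y
      exact_mod_cast (by omega : ((Finset.univ.filter (T y)).erase z).card + 1 ≤ q)
    have s1 := Finset.sum_le_card_nsmul ((Finset.univ.filter (T y)).erase z)
      (fun s => 2 - 2 * δ ^ (d s + 1)) 2 fun s _ => (vb s).2
    rw [nsmul_eq_mul] at s1
    by_cases a : T y z
    · rw [← Finset.add_sum_erase _ _ (Finset.mem_filter.2 ⟨Finset.mem_univ z, a⟩)]
      linarith [z2 a]
    · rw [Finset.erase_eq_of_notMem (by simpa using a)] at s1 cd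
      linarith [(pw (d y)).2]
  refine key.trans ?_
  have := pow_le_pow_of_le_one d0.le (by linarith) (hD ⟨y, rfl⟩)
  have e : q * δ ^ (d y + 1) = δ ^ d y / 2 := by rw [pow_succ]; linear_combination δ ^ d y * d2
  nlinarith [mul_pos (pw D).1 (pw (d y + 1)).1]

theorem pad {L M : List (α × Bool)} {t : α × Bool} (h : IsReduced (L ++ t :: M)) (k : ℕ) :
    IsReduced (L ++ List.replicate k t ++ t :: M) := by
  induction k with
  | zero => simpa
  | succ k ih =>
    have := IsReduced.append_overlap (L₁ := L ++ List.replicate k t) (L₂ := [t]) (L₃ := t :: M)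
      (sub ih (List.IsPrefix.isInfix ⟨M, by simp⟩))
      (red_cons (sub h (List.IsSuffix.isInfix ⟨L, rfl⟩)) (fl_ne t).symm) (by simp)
    rwa [List.replicate_succ', ← List.append_assoc]

theorem join2 {r : ℕ} (hr : 2 ≤ r) {L M : List (Fin r × Bool)} (h : IsReduced L)
    (h' : IsReduced M) : ∃ t, IsReduced (L ++ t :: M) := by
  obtain ⟨t, ht⟩ : ∃ t : Fin r × Bool, t ∉ ({fl (L.getLast?.getD (⟨0, by omega⟩, true)),
      fl (M.head?.getD (⟨0, by omega⟩, true))} : Finset (Fin r × Bool)) := by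
    refine (Finset.exists_mem_notMem_of_card_lt_card (t := Finset.univ) ?_).imp fun _ g => g.2
    exact lt_of_le_of_lt Finset.card_le_two (by simp; omega)
  simp only [Finset.mem_insert, Finset.mem_singleton, not_or] at ht
  refine ⟨t, List.IsChain.append h (List.IsChain.cons h' fun a ha e => ?_) fun a ha b hb e => ?_⟩
  · rw [Option.mem_def.1 ha] at ht
    rw [(fst_eq e).resolve_right ht.2]
  · obtain rfl : t = b := by simpa using hb
    rw [Option.mem_def.1 ha] at ht
    rw [(fst_eq e.symm).resolve_right ht.1]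

def st {V : Type} (f : α → Equiv.Perm V) (v : V) : List (α × Bool) → List (V × α × Bool)
  | [] => []
  | s :: L => (lift f (mk (s :: L)) v, s) :: st f v L

theorem cntA {r : ℕ} (hr : 2 ≤ r) {V : Type} [Fintype V] (f : Fin r → Equiv.Perm V) (v b : V)
    {y s : Fin r × Bool} (hs : s ≠ fl y) (hb : ∃ g, lift f g v = b) :
    ∃ C l : ℝ, 0 ≤ C ∧ 0 ≤ l ∧ l < 2 * r - 1 ∧ Cov (Av f v b y s) C l := by
  classical
  let U : V × Fin r × Bool → V × Fin r × Bool → Prop := fun σ σ' =>
    σ'.2 ≠ fl σ.2 ∧ σ.1 = lift f (mk [σ.2]) σ'.1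
  let T : V × Fin r × Bool → V × Fin r × Bool → Prop := fun σ σ' =>
    U σ σ' ∧ ¬ (σ.2 = y ∧ σ' = (b, s)) ∧ ∃ g, lift f g v = σ.1
  have rc : ∀ (N : List (Fin r × Bool)) s', IsReduced (s' :: (N ++ [y])) →
      Rch U (lift f (mk [y]) b, y) (N.length + 1) (lift f (mk (s' :: (N ++ [y]))) b, s') := by
    intro N
    have ne : ∀ {p q : Fin r × Bool} {M}, IsReduced (p :: q :: M) → q ≠ fl p := fun a e => by
      have := (isReduced_cons_cons.1 a).1
      simp [e, fl] at this
    induction N with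
    | nil => exact fun s' a => ⟨(lift f (mk [y]) b, y), ⟨ne (M := []) a, by
        show _ = lift f (mk [s']) (lift f (mk [y]) b)
        rw [← Equiv.Perm.mul_apply, ← map_mul]; rfl⟩, rfl⟩
    | cons t N ih => exact fun s' a => ⟨(lift f (mk (t :: (N ++ [y]))) b, t), ⟨ne (M := N ++ [y]) a, by
        show _ = lift f (mk [s']) (lift f (mk (t :: (N ++ [y]))) b)
        rw [← Equiv.Perm.mul_apply, ← map_mul]; rfl⟩, ih t (isReduced_cons_cons.1 a).2⟩
  obtain ⟨l, w, l0, l1, w1, w2⟩ := pot T U (lift f (mk [y]) b, y) (b, s) (q := 2 * r - 1)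
    (by omega) (fun _ _ a => a.1) (fun σ => by
      refine le_trans (Finset.card_le_card_of_injOn (t := Finset.univ.erase (fl σ.2)) Prod.snd
        (fun p a => by simpa using ((@Finset.mem_filter _ _ (_) _ _).1 a).2.1) fun p a p' a' e => ?_)
        (by rw [Finset.card_erase_of_mem (Finset.mem_univ _)]; simp [mul_comm])
      exact Prod.ext ((lift f (mk [σ.2])).injective (((@Finset.mem_filter _ _ (_) _ _).1 a).2.2.symm.trans
        ((@Finset.mem_filter _ _ (_) _ _).1 a').2.2)) e)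
    ⟨⟨hs, rfl⟩, fun a => a.2.1 ⟨rfl, rfl⟩⟩ (by
      rintro ⟨v', s'⟩ _ ⟨-, -, g, rfl⟩
      obtain ⟨g', rfl⟩ := hb
      obtain ⟨k, hk⟩ : ∃ k, Fintype.card (Equiv.Perm V) = k + 1 :=
        Nat.exists_eq_succ_of_ne_zero Fintype.card_ne_zero
      have tv : ∀ t : Fin r × Bool, lift f (mk (List.replicate k t)) * lift f (mk [t]) = 1 :=
        fun t => by
          rw [← pow_card_eq_one (x := lift f (mk [t])), hk, pow_succ, ← map_pow, pow_mk]
          simp
      let G := ((mk [s'])⁻¹ * (g * g'⁻¹) * (mk [y])⁻¹).toWord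
      obtain ⟨t, a⟩ := join2 hr (L := G) (M := [y]) isReduced_toWord IsReduced.singleton
      obtain ⟨t', a'⟩ := join2 hr (L := [s']) IsReduced.singleton (pad a k)
      have := rc (List.replicate k t' ++ t' :: (G ++ List.replicate k t ++ [t])) s'
        (by simpa using pad a' k)
      refine ⟨_, by
        convert this using 2
        have e : mk (s' :: (List.replicate k t' ++ t' :: (G ++ List.replicate k t ++ [t]) ++ [y]))
          = mk [s'] * (mk (List.replicate k t') * mk [t']) * mk G *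
            (mk (List.replicate k t) * mk [t]) * mk [y] := by simp [mul_mk]
        rw [e, ← Equiv.Perm.mul_apply]
        simp only [map_mul, tv, G, mk_toWord, map_inv]
        congr 1
        group⟩)
  have e : ((2 * r - 1 : ℕ) : ℝ) = 2 * r - 1 := by rw [Nat.cast_sub (by omega)]; simp
  have key := card_chn T w l0 (fun y => (w1 y).1) w2
  refine ⟨Fintype.card (V × Fin r × Bool) * 2 + 1, max l 1, by positivity, by positivity,
    max_lt (e ▸ l1) (by have : (2 : ℝ) ≤ r := by exact_mod_cast hr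
                        linarith), ?_⟩
  have ch : ∀ L, Av f v b y s L → (st f v L).IsChain T ∧ (st f v L).map Prod.snd = L := by
    intro L
    induction L with
    | nil => exact fun _ => ⟨List.IsChain.nil, rfl⟩
    | cons p L ih =>
      intro a
      have := ih ⟨sub a.1 (List.suffix_cons _ _).isInfix, fun c1 c2 e =>
        a.2 (p :: c1) c2 (by simp [e])⟩
      refine ⟨?_, by simp [st, this.2]⟩
      rcases L with _ | ⟨q, L⟩
      · exact List.IsChain.singleton _
      refine List.isChain_cons_cons.2 ⟨⟨⟨fun e => ?_, by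
        show _ = lift f (mk [p]) (lift f (mk (q :: L)) v)
        rw [← Equiv.Perm.mul_apply, ← map_mul]; rfl⟩, ?_, _, rfl⟩, this.1⟩
      · have := (isReduced_cons_cons.1 a.1).1
        simp only at e
        simp [e, fl] at this
      · rintro ⟨rfl, e⟩
        obtain ⟨e1, rfl⟩ := Prod.mk.inj e
        exact a.2 [] L rfl e1
  rintro (_ | n)
  · exact ⟨{[]}, by simp; positivity, fun L a _ => by simpa using a⟩
  refine ⟨(Finset.univ.biUnion fun y => (chn T n y).image (y :: ·)).image (List.map Prod.snd),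
    ?_, ?_⟩
  · refine le_trans (Nat.cast_le.2 (Finset.card_image_le.trans Finset.card_biUnion_le)) ?_
    push_cast
    have m1 : l ^ n ≤ max l 1 ^ (n + 1) := (pow_le_pow_left₀ l0 (le_max_left _ _) n).trans
      (pow_le_pow_right₀ (le_max_right _ _) (Nat.le_succ n))
    refine le_trans (Finset.sum_le_sum (g := fun _ => max l 1 ^ (n + 1) * 2) fun s _ =>
      (Nat.cast_le.2 Finset.card_image_le).trans ((key n s).trans (mul_le_mul m1 (w1 s).2
        (by linarith [(w1 s).1]) (by positivity)))) ?_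
    rw [Finset.sum_const, nsmul_eq_mul, Finset.card_univ]
    nlinarith [pow_nonneg (le_trans l0 (le_max_left l 1)) (n + 1)]
  · rintro (_ | ⟨p, L⟩) a c
    · simp at a
    · obtain ⟨c1, c2⟩ := ch _ c
      have : (st f v L).length = n := by
        have := congrArg List.length c2
        simp [st] at this a
        omega
      exact Finset.mem_image.2 ⟨_, Finset.mem_biUnion.2 ⟨_, Finset.mem_univ _, Finset.mem_image.2
        ⟨st f v L, this ▸ mem_chn _ _ _ c1, rfl⟩⟩, c2⟩

end Pool.Agent.H.MP_b831a3_al
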