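import Pool.Agent.H.MP_b831a3_al.B

namespace Pool.Agent.H.MP_b831a3_al

open FreeGroup hiding map_mul map_inv map_one
open Pool.Agent.H.MP_1d2ce7_al Pool.Agent.H.MP_a41846_al Pool.Agent.H.MP_bec853_al

theorem cntB {r : ℕ} (hr : 2 ≤ r) (V : Type) [Fintype V] : ∃ C l : ℝ, 0 ≤ C ∧ 2 * r - 9 / 8 ≤ l ∧
    l < 2 * r - 1 ∧
    Cov (fun L : List (Fin r × Bool) => IsCyclicallyReduced L ∧ QR V (mk L)) C l := by
  classical
  let I := {p : (Fin r → Equiv.Perm V) × V × V × (Fin r × Bool) × (Fin r × Bool) //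
    p.2.2.2.2 ≠ fl p.2.2.2.1 ∧ ∃ g, lift p.1 g p.2.1 = p.2.2.1}
  choose C l c0 l0 l1 h using fun p : I => cntA hr p.1.1 p.1.2.1 p.1.2.2.1 p.2.1 p.2.2
  obtain ⟨m, hm⟩ := Finite.exists_max fun o : Option I => (o.elim (2 * r - 9 / 8) l : ℝ)
  refine ⟨∑ p, C p, m.elim (2 * r - 9 / 8) l, Finset.sum_nonneg fun p _ => c0 p, hm none, by
    rcases m with _ | m
    · simp only [Option.elim]; linarith
    · exact l1 m, fun n => ?_⟩
  choose F f1 f2 using fun p : I => h p n
  refine ⟨Finset.univ.biUnion F, le_trans (Nat.cast_le.2 Finset.card_biUnion_le) ?_, ?_⟩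
  · push_cast
    rw [Finset.sum_mul]
    exact Finset.sum_le_sum fun p _ => (f1 p).trans (mul_le_mul_of_nonneg_left
      (pow_le_pow_left₀ (l0 p) (hm (some p)) n) (c0 p))
  · rintro L a ⟨b, c⟩
    obtain ⟨f, v, b, y, s, p, q, e⟩ := conf2 b c
    exact Finset.mem_biUnion.2 ⟨⟨(f, v, b, y, s), p, q⟩, Finset.mem_univ _, f2 _ L a e⟩

theorem cntC {r : ℕ} (hr : 2 ≤ r) (V : Type) [Fintype V] : ∃ C l : ℝ, 1 ≤ l ∧ l < 2 * r - 1 ∧
    Cov (fun L : List (Fin r × Bool) => IsReduced L ∧ QR V (mk L)) C l := by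
  classical
  obtain ⟨C, l, c0, l1, l3, h⟩ := cntB hr V
  have r3 : (2 : ℝ) ≤ r := by exact_mod_cast hr
  have l2 : 4 * r ≤ l ^ 2 := by nlinarith
  have l0 : 0 ≤ l := by linarith
  refine ⟨2 * C, l, by linarith, l3, fun n => ?_⟩
  induction n using Nat.strong_induction_on with | _ n ih => ?_
  obtain ⟨F, f1, f2⟩ := h n
  have sm : n < 2 → ∃ F : Finset (List (Fin r × Bool)), (F.card : ℝ) ≤ 2 * C * l ^ n ∧
      ∀ L : List (Fin r × Bool), L.length = n → IsReduced L ∧ QR V (mk L) → L ∈ F := fun a =>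
    ⟨F, by nlinarith [mul_nonneg c0 (pow_nonneg l0 n)], fun L b c => f2 L b ⟨by
      rcases L with _ | ⟨s, _ | ⟨t, L⟩⟩
      · simp
      · simp
      · simp at b; omega, c.2⟩⟩
  rcases n with _ | _ | n
  · exact sm (by omega)
  · exact sm (by omega)
  obtain ⟨G, g1, g2⟩ := ih n (by omega)
  refine ⟨F ∪ Finset.univ.biUnion fun t => G.image fun M => t :: M ++ [fl t], ?_, ?_⟩
  · refine le_trans (Nat.cast_le.2 ((Finset.card_union_le _ _).trans
      (Nat.add_le_add_left Finset.card_biUnion_le _))) ?_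
    push_cast
    have := Finset.sum_le_sum (s := Finset.univ) fun (t : Fin r × Bool) _ =>
      (Nat.cast_le.2 (Finset.card_image_le (s := G) (f := fun M => t :: M ++ [fl t]))).trans g1
    rw [Finset.sum_const, nsmul_eq_mul, Finset.card_univ] at this
    simp only [Fintype.card_prod, Fintype.card_fin, Fintype.card_bool] at this
    push_cast at this
    have e : l ^ (n + 1 + 1) = l ^ n * l ^ 2 := by ring
    rw [e] at f1 ⊢
    nlinarith [mul_le_mul_of_nonneg_left l2 (mul_nonneg c0 (pow_nonneg l0 n))]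
  · rintro L a ⟨b, c⟩
    by_cases d : IsCyclicallyReduced L
    · exact Finset.mem_union_left _ (f2 L a ⟨d, c⟩)
    obtain ⟨t, L', rfl⟩ := List.exists_cons_of_ne_nil (l := L) (by rintro rfl; simp at a)
    obtain ⟨M, s, rfl⟩ := L'.eq_nil_or_concat.resolve_left (by rintro rfl; simp at a)
    rw [List.concat_eq_append] at *
    obtain rfl : s = fl t := by
      by_contra q
      exact d (isCyclicallyReduced_cons_append_iff.2 ⟨b, fun p => by
        rw [(fst_eq p).resolve_right q]⟩)
    refine Finset.mem_union_right _ (Finset.mem_biUnion.2 ⟨t, Finset.mem_univ _,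
      Finset.mem_image.2 ⟨M, g2 M (by simpa using a) ⟨sub b ⟨[t], [fl t], by simp⟩,
        QR.aut (MulAut.conj (mk [t])) ?_⟩, rfl⟩⟩)
    rwa [MulAut.conj_apply, ← mk_fl, mul_mk, mul_mk]

theorem ball_ge2 {r : ℕ} (hr : 2 ≤ r) (n : ℕ) :
    (2 * r - 1 : ℝ) ^ n ≤ Set.ncard {w : FreeGroup (Fin r) | w.toWord.length ≤ n} := by
  have h := low n ((⟨0, by omega⟩, true) : Fin r × Bool)
  have rd := fun L a => sub (h.2 L a).2 (List.suffix_cons _ L).isInfix
  have := Set.ncard_le_ncard_of_injOn (t := {w : FreeGroup (Fin r) | w.toWord.length ≤ n}) mk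
    (fun L (a : L ∈ (chn (fun y s : Fin r × Bool => s ≠ fl y) n (⟨0, by omega⟩, true) : Set _)) =>
      by rw [Set.mem_ofPred_eq, tw (rd L a)]; exact (h.2 L a).1.le)
    (fun L a M b e => by rw [← tw (rd L a), e, tw (rd M b)]) (ball_fin n)
  rw [Set.ncard_coe_finset, h.1] at this
  have e : (2 * r - 1 : ℝ) = (2 * r - 1 : ℕ) := by rw [Nat.cast_sub (by omega)]; simp
  rw [e]
  exact_mod_cast this

theorem dens2 {r : ℕ} (hr : 2 ≤ r) (V : Type) [Fintype V] (X : Set (FreeGroup (Fin r)))
    (hX : ∀ w ∈ X, QR V w) :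
    Filter.Tendsto (fun n : ℕ => (Set.ncard {w ∈ X | w.toWord.length ≤ n} : ℝ) /
      Set.ncard {w : FreeGroup (Fin r) | w.toWord.length ≤ n}) Filter.atTop (nhds 0) := by
  classical
  obtain ⟨C, l, l1, l2, h⟩ := cntC hr V
  choose F f1 f2 using h
  have c0 : 0 ≤ C := by simpa using (Nat.cast_nonneg _).trans (f1 0)
  have up : ∀ n : ℕ, (Set.ncard {w ∈ X | w.toWord.length ≤ n} : ℝ) ≤ (n + 1) * (C * l ^ n) := by
    intro n
    have := Set.ncard_le_ncard_of_injOn (s := {w ∈ X | w.toWord.length ≤ n})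
      (t := ((Finset.range (n + 1)).biUnion F : Finset _)) toWord (fun w a =>
        Finset.mem_biUnion.2 ⟨_, Finset.mem_range.2 (Nat.lt_succ_of_le a.2), f2 _ _ rfl
          ⟨isReduced_toWord, by rw [mk_toWord]; exact hX w a.1⟩⟩) toWord_injective.injOn
    rw [Set.ncard_coe_finset] at this
    refine le_trans (Nat.cast_le.2 (this.trans Finset.card_biUnion_le)) ?_
    push_cast
    refine le_trans (Finset.sum_le_sum (g := fun _ => C * l ^ n) fun k a => (f1 k).trans
      (mul_le_mul_of_nonneg_left (pow_le_pow_right₀ l1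
        (Nat.le_of_lt_succ (Finset.mem_range.1 a))) c0)) (by simp)
  have q0 : 0 ≤ l / (2 * r - 1) := div_nonneg (by linarith) (by linarith)
  have q1 : l / (2 * r - 1) < 1 := by rw [div_lt_one (by linarith)]; exact l2
  have t := ((tendsto_self_mul_const_pow_of_lt_one q0 q1).add
    (tendsto_pow_atTop_nhds_zero_of_lt_one q0 q1)).const_mul C
  rw [add_zero, mul_zero] at t
  refine squeeze_zero (fun n => by positivity) (fun n => ?_) t
  have p : (0 : ℝ) < (2 * r - 1) ^ n := pow_pos (by linarith) n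
  refine le_trans (div_le_div₀ (by positivity) (up n) p (ball_ge2 hr n)) (le_of_eq ?_)
  rw [div_pow]; ring

variable {α : Type} [DecidableEq α]

theorem sfx_mul {W : List (α × Bool)} {g : FreeGroup α} (L : List (α × Bool))
    (h : mk L * g ∈ cone W) : g ∈ cone W ∨ ∃ M, M <:+ L ∧ mk W = mk M * g := by
  induction L with
  | nil => rw [← one_eq_mk, one_mul] at h; exact Or.inl h
  | cons s L ih =>
    by_cases e : (mk (s :: L) * g).toWord = W
    · exact Or.inr ⟨_, List.suffix_refl _, by rw [← e, mk_toWord]⟩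
    have := step (fl s) h e
    rw [show mk (s :: L) = mk [s] * mk L from rfl, mul_assoc, mk_fl, inv_mul_cancel_left] at this
    exact (ih this).imp id fun ⟨M, a, b⟩ => ⟨M, a.trans (List.suffix_cons _ _), b⟩

theorem edge2 {V : Type} (ρ : FreeGroup α →* Equiv.Perm V) (v : V) (s : α × Bool)
    (u : FreeGroup α) : ∃ P : Set (FreeGroup α), AI P ∧ NM P Set.univ ∧ ∀ m : FreeGroup α,
      (∀ M, s :: M <:+ m.toWord → ρ (mk M) v ≠ ρ u v) → ∀ g ∈ P, ρ g v = v → m * g ∈ P := by
  have inf : ∀ (t : α × Bool) (u : FreeGroup α), (hs {t} u).Infinite := fun t u => by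
    rw [hs_tr _ u 1, hs_cone (by simp)]
    exact (cone_inf (by simp) (by simp)).preimage (by
      rw [(Equiv.mulRight _).surjective.range_eq]; exact Set.subset_univ _)
  have ai : AI (hs {fl s} (mk [s] * u)) := fun x =>
    ((ai_cone [fl s] x).preimage (Equiv.mulRight (mk [s] * u)⁻¹).injective.injOn).subset
      fun g => by simp only [Set.mem_ofPred_eq, hs1, Set.mem_preimage, Equiv.coe_mulRight,
        mul_assoc]; exact id
  refine ⟨hs {fl s} (mk [s] * u), ai, ⟨by simpa using inf _ _,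
    by simpa [← cpl] using inf _ _⟩, fun m h2 g a b => ?_⟩
  have : ∀ M, M <:+ m.toWord → mk M * g ∈ hs {fl s} (mk [s] * u) := by
    intro M
    induction M with
    | nil => intro _; rwa [← one_eq_mk, one_mul]
    | cons t M ih =>
      intro c
      have := hs1.1 (ih ((List.suffix_cons _ _).trans c))
      rw [hs1, show mk (t :: M) = mk [t] * mk M from rfl, mul_assoc, mul_assoc, ← mul_assoc (mk M)]
      refine (cb1 (fun e => one_not _ (e.1 ▸ this)) ?_).1 this
      rintro ⟨e1, e2⟩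
      rw [fl_fl] at e2
      subst e2
      rw [← mul_assoc, mul_inv_eq_one, mul_right_inj] at e1
      exact h2 M c (by rw [← e1, map_mul, Equiv.Perm.mul_apply, b])
  simpa [mk_toWord] using this _ (List.suffix_refl _)

theorem edge {V : Type} (ρ : FreeGroup α →* Equiv.Perm V) (v : V) (s : α × Bool)
    (u m : FreeGroup α) (h1 : ρ m v = v)
    (h2 : ∀ M, s :: M <:+ m.toWord → ρ (mk M) v ≠ ρ u v) : QR V m :=
  let ⟨P, a, b, c⟩ := edge2 ρ v s u
  ⟨ρ, v, P, a, b, h1, c m h2⟩

theorem hall [Finite α] (H : Subgroup (FreeGroup α)) (hH : H.FG) (hi : H.index = 0) :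
    ∃ (V : Type) (_ : Fintype V), ∀ m ∈ H, QR V m := by
  classical
  obtain ⟨S, rfl⟩ := hH
  set H := Subgroup.closure (S : Set (FreeGroup α))
  let x0 : FreeGroup α ⧸ H := QuotientGroup.mk 1
  let V0 : Finset (FreeGroup α ⧸ H) := insert x0 ((S ∪ S.image (·⁻¹)).biUnion fun s =>
    (s.toWord.tails.toFinset).image fun M => mk M • x0)
  have fx : ∀ m ∈ H, m • x0 = x0 := fun m a => by
    show QuotientGroup.mk (m * 1) = QuotientGroup.mk 1
    rw [QuotientGroup.eq]; simpa using a
  have gen : ∀ s ∈ S ∪ S.image (·⁻¹), ∀ M, M <:+ s.toWord → mk M • x0 ∈ V0 := fun s a M b =>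
    Finset.mem_insert_of_mem (Finset.mem_biUnion.2 ⟨s, a, Finset.mem_image.2
      ⟨M, by simpa using b, rfl⟩⟩)
  have stay : ∀ m ∈ H, ∀ M, M <:+ m.toWord → mk M • x0 ∈ V0 := by
    intro m a
    have : m ∈ H ∧ ∀ M, M <:+ m.toWord → mk M • x0 ∈ V0 := by
      induction a using Subgroup.closure_induction'' with
      | one =>
        refine ⟨H.one_mem, fun M b => ?_⟩
        rw [List.suffix_nil.1 b, ← one_eq_mk, one_smul]
        exact Finset.mem_insert_self _ _
      | mem x b => exact ⟨Subgroup.subset_closure b, gen x (Finset.mem_union_left _ b)⟩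
      | inv_mem x b => exact ⟨H.inv_mem (Subgroup.subset_closure b),
          gen _ (Finset.mem_union_right _ (Finset.mem_image_of_mem _ b))⟩
      | mul x y _ _ a b =>
        refine ⟨H.mul_mem a.1 b.1, fun M c => ?_⟩
        rcases sfx_mul (W := M) (g := y) x.toWord (by rwa [mk_toWord]) with d | ⟨N, d, e⟩
        · exact b.2 M d
        · rw [e, mul_smul, fx y b.1]; exact a.2 N d
    exact this.2
  have ex : ∀ a : α, ∃ σ : V0 ≃ V0, ∀ v : V0, of a • v.1 ∈ V0 → (σ v).1 = of a • v.1 := fun a =>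
    Set.MapsTo.exists_equiv_extend_of_card_eq (s := {v : V0 | of a • v.1 ∈ V0})
      (f := fun v : V0 => of a • v.1) (by simp) (fun v b => b)
      fun v _ v' _ e => Subtype.ext (MulAction.injective _ e)
  choose σ hσ using ex
  let v0 : V0 := ⟨x0, Finset.mem_insert_self _ _⟩
  have lt : ∀ (t : α × Bool) (v : V0), mk [t] • v.1 ∈ V0 →
      (lift σ (mk [t]) v).1 = mk [t] • v.1 := by
    rintro ⟨a, _ | _⟩ v b
    · have e : mk [(a, false)] = (of a)⁻¹ := mk_fl (a, true)
      rw [e] at b ⊢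
      rw [map_inv, lift_apply_of]
      have := hσ a ⟨_, b⟩ (by simp)
      simp only [smul_inv_smul] at this
      exact congrArg Subtype.val (Equiv.Perm.inv_eq_iff_eq.2 (Subtype.ext this).symm)
    · erw [lift_apply_of]; exact hσ a v b
  have ac : ∀ L : List (α × Bool), (∀ M, M <:+ L → mk M • x0 ∈ V0) →
      (lift σ (mk L) v0).1 = mk L • x0 := by
    intro L
    induction L with
    | nil => intro _; rw [← one_eq_mk, map_one, one_smul]; rfl
    | cons t L ih =>
      intro a
      have i := ih fun M b => a M (b.trans (List.suffix_cons _ _))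
      have := a _ (List.suffix_refl _)
      rw [show mk (t :: L) = mk [t] * mk L from rfl, mul_smul] at this ⊢
      rw [map_mul, Equiv.Perm.mul_apply, lt t _ (by rwa [i]), i]
  obtain ⟨s, L, l1, l2⟩ : ∃ (s : α × Bool) (L : List (α × Bool)),
      (∀ M, M <:+ L → mk M • x0 ∈ V0) ∧ mk (s :: L) • x0 ∉ V0 := by
    by_contra c
    push Not at c
    have al : ∀ L : List (α × Bool), ∀ M, M <:+ L → mk M • x0 ∈ V0 := fun L => by
      induction L with
      | nil =>
        intro M b
        rw [List.suffix_nil.1 b, ← one_eq_mk, one_smul]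
        exact v0.2
      | cons s L ih => exact fun M b => (List.suffix_cons_iff.1 b).elim (fun e => e ▸ c s L ih) (ih M)
    have := Subgroup.index_eq_zero_iff_infinite.1 hi
    obtain ⟨x, hx⟩ := Infinite.exists_notMem_finset V0
    obtain ⟨g, rfl⟩ := QuotientGroup.mk_surjective x
    have := al _ _ (List.suffix_refl g.toWord)
    rw [mk_toWord] at this
    exact hx (by convert this using 1; exact congrArg _ (mul_one g).symm)
  refine ⟨V0, inferInstance, fun m a => edge (lift σ) v0 s (mk L) m (Subtype.ext ?_)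
    fun M b e => l2 ?_⟩
  · have := ac _ (stay m a)
    rw [mk_toWord, fx m a] at this
    exact this
  · have e1 := ac M fun N c => stay m a N ((c.trans (List.suffix_cons _ _)).trans b)
    have := stay m a _ b
    rw [show mk (s :: M) = mk [s] * mk M from rfl, mul_smul, ← e1, e, ac L l1, ← mul_smul] at this
    exact this

end Pool.Agent.H.MP_b831a3_al
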